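import Pool.Agent.W2helper1.DG.Stm

/-!
# Piece CB1 of project DG
-/

set_option autoImplicit false

open Set
open Pool.Agent.Results.MP_2da123_co.DimSix (IsGraphOf IsPolytopal joinComplete dJoin)
open Pool.Agent.W2helper1.DG

namespace Pool.Agent.W2helper99.DG

theorem inr_adj {V : Type} (G : SimpleGraph V) {n : ℕ} (a : Fin n) {u : V ⊕ Fin n}
    (h : u ≠ Sum.inr a) : (joinComplete G n).Adj (Sum.inr a) u :=
  ⟨h.symm, fun _ _ hu _ => by cases hu⟩

theorem inl_adj {V : Type} (G : SimpleGraph V) {n : ℕ} {u v : V}
    (h : (joinComplete G n).Adj (Sum.inl u) (Sum.inl v)) : G.Adj u v :=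
  h.2 u v rfl rfl

theorem adj_inl {V : Type} (G : SimpleGraph V) {n : ℕ} {u v : V} (h : G.Adj u v) :
    (joinComplete G n).Adj (Sum.inl u : V ⊕ Fin n) (Sum.inl v) :=
  ⟨fun h' => h.ne (Sum.inl.inj h'), fun a b ha hb => by
    rw [← Sum.inl.inj ha, ← Sum.inl.inj hb]
    exact h⟩

/-- the non-crossing condition -/
def NCr {W : Type} (H : SimpleGraph W) {m : ℕ} (c : Fin (m + 3) → W) : Prop :=
  ∀ i j k l : Fin (m + 3), i < j → j < k → k < l → ¬ (H.Adj (c i) (c k) ∧ H.Adj (c j) (c l))

/-- rotation by one -/
theorem rot_one {W : Type} (H : SimpleGraph W) {m : ℕ} (c : Fin (m + 3) → W) (h : NCr H c) :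
    NCr H (fun i => c (i + 1)) := by
  intro i j k l hij hjk hkl
  rintro ⟨h1, h2⟩
  have hval : ∀ a : Fin (m + 3), a.val < m + 2 → (a + 1).val = a.val + 1 := by
    intro a ha
    rw [Fin.val_add_one_of_lt]
    rw [Fin.lt_def, Fin.val_last]
    exact ha
  have hi := hval i (by omega)
  have hj := hval j (by omega)
  have hk := hval k (by omega)
  by_cases hl : l.val < m + 2
  · have hl' := hval l hl
    exact h (i + 1) (j + 1) (k + 1) (l + 1) (by omega) (by omega) (by omega) ⟨h1, h2⟩
  · have hl0 : l + 1 = 0 := by
      have : l = Fin.last (m + 2) := Fin.ext (by rw [Fin.val_last]; omega)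
      rw [this]
      exact Fin.last_add_one _
    simp only [hl0] at h2
    have h0 : ((0 : Fin (m + 3)) : ℕ) = 0 := rfl
    exact h 0 (i + 1) (j + 1) (k + 1) (by omega) (by omega) (by omega) ⟨h2.symm, h1⟩

theorem rot {W : Type} (H : SimpleGraph W) {m : ℕ} (c : Fin (m + 3) → W) (h : NCr H c)
    (t : Fin (m + 3)) : NCr H (fun i => c (i + t)) := by
  induction t using Fin.induction with
  | zero => simpa using h
  | succ t ih =>
    have h1 := rot_one H _ ih
    have e : ∀ a : Fin (m + 3), a + t.succ = a + 1 + t.castSucc := by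
      intro a
      have h2 : t.castSucc + 1 = t.succ := Fin.coeSucc_eq_succ
      rw [← h2, ← add_assoc, add_right_comm]
    intro i j k l h2 h3 h4
    have h5 := h1 i j k l h2 h3 h4
    simp only [e]
    exact h5

/-- two universal vertices -/
theorem two_univ {W : Type} (H : SimpleGraph W) {m : ℕ} (c : Fin (m + 3) → W) (h : NCr H c)
    (s t : Fin (m + 3)) (hst : s < t) (hs : ∀ u, u ≠ s → H.Adj (c s) (c u))
    (ht : ∀ u, u ≠ t → H.Adj (c t) (c u)) : m < 2 := by
  classical
  by_contra hm
  push Not at hm
  set I : Finset (Fin (m + 3)) := Finset.univ.filter fun a => s < a ∧ a < t with hI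
  set O : Finset (Fin (m + 3)) := Finset.univ.filter fun a => a < s ∨ t < a with hO
  have hsub : (Finset.univ : Finset (Fin (m + 3))) ⊆ (I ∪ O) ∪ {s, t} := by
    intro a _
    simp only [hI, hO, Finset.mem_union, Finset.mem_filter, Finset.mem_univ, true_and,
      Finset.mem_insert, Finset.mem_singleton]
    by_cases h1 : a = s
    · exact Or.inr (Or.inl h1)
    by_cases h2 : a = t
    · exact Or.inr (Or.inr h2)
    left
    omega
  have hcard := Finset.card_le_card hsub
  have h1 := Finset.card_union_le (I ∪ O) {s, t}
  have h2 := Finset.card_union_le I O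
  have h3 : ({s, t} : Finset (Fin (m + 3))).card ≤ 2 := Finset.card_le_two
  rw [Finset.card_univ, Fintype.card_fin] at hcard
  have h4 : 1 < I.card ∨ 1 < O.card := by omega
  rcases h4 with h4 | h4
  · obtain ⟨a, ha, b, hb, hab⟩ := Finset.one_lt_card.1 h4
    have key : ∀ a b : Fin (m + 3), a ∈ I → b ∈ I → a < b → False := by
      intro a b ha hb hab
      simp only [hI, Finset.mem_filter, Finset.mem_univ, true_and] at ha hb
      exact h s a b t ha.1 hab hb.2 ⟨hs b hb.1.ne', (ht a ha.2.ne).symm⟩
    rcases lt_or_gt_of_ne hab with h5 | h5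
    · exact key a b ha hb h5
    · exact key b a hb ha h5
  · obtain ⟨a, ha, b, hb, hab⟩ := Finset.one_lt_card.1 h4
    have key : ∀ a b : Fin (m + 3), a ∈ O → b ∈ O → a < b → False := by
      intro a b ha hb hab
      simp only [hO, Finset.mem_filter, Finset.mem_univ, true_and] at ha hb
      rcases ha with ha | ha
      · rcases hb with hb | hb
        · exact h a b s t hab hb hst ⟨(hs a ha.ne).symm, (ht b (hb.trans hst).ne).symm⟩
        · exact h a s t b ha hst hb ⟨(ht a (ha.trans hst).ne).symm, hs b (hst.trans hb).ne'⟩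
      · exact h s t a b hst ha hab ⟨hs a (hst.trans ha).ne', ht b (ha.trans hab).ne'⟩
    rcases lt_or_gt_of_ne hab with h5 | h5
    · exact key a b ha hb h5
    · exact key b a hb ha h5

theorem cb1 : S_CB1 := by
  classical
  intro V _ G n hn ⟨m, c, hc1, hc2⟩
  have hNC : NCr (joinComplete G n) c := hc2
  by_cases hn2 : 2 ≤ n
  · left
    set s := c.symm (Sum.inr ⟨0, by omega⟩) with hs
    set t := c.symm (Sum.inr ⟨1, by omega⟩) with ht
    have hst : s ≠ t := by
      intro h
      have := c.symm.injective h
      simp at this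
    have hus : ∀ u, u ≠ s → (joinComplete G n).Adj (c s) (c u) := by
      intro u hu
      have e : c s = Sum.inr ⟨0, by omega⟩ := by rw [hs, c.apply_symm_apply]
      rw [e]
      refine inr_adj G _ fun h => hu ?_
      rw [← e] at h
      exact c.injective h
    have hut : ∀ u, u ≠ t → (joinComplete G n).Adj (c t) (c u) := by
      intro u hu
      have e : c t = Sum.inr ⟨1, by omega⟩ := by rw [ht, c.apply_symm_apply]
      rw [e]
      refine inr_adj G _ fun h => hu ?_
      rw [← e] at h
      exact c.injective h
    have hm : m < 2 := by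
      rcases lt_or_gt_of_ne hst with h | h
      · exact two_univ _ c hNC s t h hus hut
      · exact two_univ _ c hNC t s h hut hus
    have hcard := Fintype.card_congr c
    rw [Fintype.card_fin, Fintype.card_sum, Fintype.card_fin] at hcard
    omega
  · right
    obtain rfl : n = 1 := by omega
    set s := c.symm (Sum.inr 0) with hs
    set c' : Fin (m + 3) → V ⊕ Fin 1 := fun i => c (i + s) with hc'
    have hNC' : NCr (joinComplete G 1) c' := rot _ _ hNC s
    have hinj : Function.Injective c' := by
      intro a b hab
      have := c.injective hab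
      exact add_right_cancel this
    have h0 : c' 0 = Sum.inr 0 := by
      simp only [hc', zero_add]
      rw [hs, c.apply_symm_apply]
    have hadj : ∀ i, (joinComplete G 1).Adj (c' i) (c' (i + 1)) := by
      intro i
      have e : i + 1 + s = i + s + 1 := by rw [add_assoc, add_comm 1, add_assoc]
      simp only [hc']
      rw [e]
      exact hc1 _
    have hsurj : Function.Surjective c' := by
      intro y
      refine ⟨c.symm y - s, ?_⟩
      simp only [hc', sub_add_cancel, c.apply_symm_apply]
    have hl : ∀ i : Fin (m + 2), ∃ v : V, c' i.succ = Sum.inl v := by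
      intro i
      rcases h : c' i.succ with v | a
      · exact ⟨v, rfl⟩
      · exfalso
        have ha : a = 0 := Subsingleton.elim _ _
        rw [ha, ← h0] at h
        exact Fin.succ_ne_zero i (hinj h)
    choose f hf using hl
    have hfi : Function.Injective f := by
      intro a b hab
      have : c' a.succ = c' b.succ := by rw [hf, hf, hab]
      exact Fin.succ_injective _ (hinj this)
    have hfs : Function.Surjective f := by
      intro v
      obtain ⟨a, ha⟩ := hsurj (Sum.inl v)
      have ha0 : a ≠ 0 := by
        rintro rfl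
        rw [h0] at ha
        cases ha
      obtain ⟨b, rfl⟩ := Fin.exists_succ_eq.2 ha0
      refine ⟨b, ?_⟩
      rw [hf b] at ha
      exact Sum.inl.inj ha
    refine ⟨m + 2, Equiv.ofBijective f ⟨hfi, hfs⟩, fun i j => ?_⟩
    change G.Adj (f i) (f j) ↔ _
    have cons : ∀ a b : Fin (m + 2), a.val + 1 = b.val → G.Adj (f a) (f b) := by
      intro a b hab
      have h1 := hadj a.succ
      have e : a.succ + 1 = b.succ := by
        apply Fin.ext
        rw [Fin.val_add_one_of_lt, Fin.val_succ, Fin.val_succ, hab]
        rw [Fin.lt_def, Fin.val_last, Fin.val_succ]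
        omega
      rw [e, hf, hf] at h1
      exact inl_adj G h1
    have noncons : ∀ a b : Fin (m + 2), a.val + 1 < b.val → ¬ G.Adj (f a) (f b) := by
      intro a b hab h
      have hlt : a.val + 1 < m + 2 := by omega
      set k : Fin (m + 2) := ⟨a.val + 1, hlt⟩ with hk
      refine hNC' 0 a.succ k.succ b.succ ?_ ?_ ?_ ⟨?_, ?_⟩
      · exact Fin.succ_pos a
      · rw [Fin.lt_def, Fin.val_succ, Fin.val_succ, hk]
        simp
      · rw [Fin.lt_def, Fin.val_succ, Fin.val_succ, hk]
        simp only
        omega
      · rw [h0]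
        refine inr_adj G _ fun h' => ?_
        rw [← h0] at h'
        exact Fin.succ_ne_zero k (hinj h')
      · rw [hf, hf]
        exact adj_inl G h
    constructor
    · intro h
      by_contra hcon
      push Not at hcon
      have hne : i.val ≠ j.val := fun h' => h.ne (by rw [Fin.ext h'])
      rcases lt_or_gt_of_ne hne with h1 | h1
      · exact noncons i j (by omega) h
      · exact noncons j i (by omega) h.symm
    · rintro (h | h)
      · exact cons i j h
      · exact (cons j i h).symm

end Pool.Agent.W2helper99.DG
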