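import Pool.Agent.W2helper1.DG.Stm

/-!
# Piece L3c of project DG
-/

set_option autoImplicit false

open Set
open Pool.Agent.Results.MP_2da123_co.DimSix (IsGraphOf IsPolytopal joinComplete dJoin)
open Pool.Agent.W2helper1.DG

namespace Pool.Agent.W2helper99.DG

/-- lower bound for the number of vertices -/
theorem card_ge {d : ℕ} {U : Type} [Fintype U] [Nonempty U] {H : SimpleGraph U}
    {P : Set (EuclideanSpace ℝ (Fin d))} {p : U → EuclideanSpace ℝ (Fin d)}
    (h : IsGraphOf d H P p) : d + 1 ≤ Fintype.card U := by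
  obtain ⟨⟨S, hS⟩, hint, -, hext, -⟩ := h
  have hPc : IsCompact P := by
    rw [hS]
    exact S.finite_toSet.isCompact_convexHull ℝ
  have hPv : Convex ℝ P := hS ▸ convex_convexHull ℝ _
  have h1 : closure (convexHull ℝ (range p)) = P := by
    rw [hext]
    exact closure_convexHull_extremePoints hPc hPv
  rw [((finite_range p).isClosed_convexHull ℝ).closure_eq] at h1
  rw [← h1, interior_convexHull_nonempty_iff_affineSpan_eq_top] at hint
  have h2 : vectorSpan ℝ (range p) = ⊤ := by
    rw [← direction_affineSpan, hint, AffineSubspace.direction_top]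
  obtain ⟨k, hk⟩ : ∃ k, Fintype.card U = k + 1 := ⟨Fintype.card U - 1, by
    have := Fintype.card_pos (α := U)
    omega⟩
  have h3 := finrank_vectorSpan_range_le ℝ p hk
  rw [h2, finrank_top, finrank_euclideanSpace, Fintype.card_fin] at h3
  omega

/-- functionals at a universal vertex -/
theorem exists_fun {d : ℕ} {U : Type} {H : SimpleGraph U}
    {P : Set (EuclideanSpace ℝ (Fin d))} {p : U → EuclideanSpace ℝ (Fin d)}
    (h : IsGraphOf d H P p) (w : U) (hw : ∀ u, u ≠ w → H.Adj w u) (u : U) (hu : u ≠ w) :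
    ∃ l : EuclideanSpace ℝ (Fin d) →L[ℝ] ℝ, l (p u - p w) = 0 ∧
      ∀ v, v ≠ w → v ≠ u → 0 < l (p v - p w) := by
  obtain ⟨-, -, hinj, hext, hadj⟩ := h
  have hexp := ((hadj w u).1 (hw u hu)).2
  obtain ⟨l, hl⟩ := hexp ⟨p w, left_mem_segment ℝ _ _⟩
  have h1 := left_mem_segment ℝ (p w) (p u)
  have h2 := right_mem_segment ℝ (p w) (p u)
  rw [hl] at h1 h2
  have heq : l (p w) = l (p u) := le_antisymm (h2.2 _ h1.1) (h1.2 _ h2.1)
  have hext1 : ∀ v, p v ∈ P.extremePoints ℝ := fun v => hext ▸ mem_range_self v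
  refine ⟨-l, ?_, fun v hvw hvu => ?_⟩
  · simp [map_sub, heq]
  · have h3 : l (p v) ≤ l (p w) := h1.2 _ (extremePoints_subset (hext1 v))
    have h4 : l (p v) ≠ l (p w) := by
      intro h5
      have h6 : p v ∈ segment ℝ (p w) (p u) := by
        rw [hl]
        exact ⟨extremePoints_subset (hext1 v), fun y hy => by rw [h5]; exact h1.2 y hy⟩
      rcases (mem_extremePoints_iff_forall_segment.1 (hext1 v)).2 _ h1.1 _ h2.1 h6 with h7 | h7
      · exact hvw (hinj h7.symm)
      · exact hvu (hinj h7.symm)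
    have h5 := lt_of_le_of_ne h3 h4
    simp only [_root_.neg_apply, map_sub]
    linarith

theorem dep_two {E : Type} [AddCommGroup E] [Module ℝ E] {xa xb : E} {la lb : E →ₗ[ℝ] ℝ}
    (haa : la xa = 0) (hab : 0 < la xb) (hbb : lb xb = 0) (hba : 0 < lb xa)
    (α β : ℝ) (h : α • xa + β • xb = 0) : α = 0 ∧ β = 0 := by
  have h1 := congrArg la h
  have h2 := congrArg lb h
  simp only [map_add, map_smul, smul_eq_mul, haa, hbb, map_zero, mul_zero, zero_add,
    add_zero] at h1 h2
  exact ⟨(mul_eq_zero.1 h2).resolve_right hba.ne', (mul_eq_zero.1 h1).resolve_right hab.ne'⟩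

theorem dep_three {E : Type} [AddCommGroup E] [Module ℝ E] {xa xb xc : E}
    {la lb lc : E →ₗ[ℝ] ℝ}
    (haa : la xa = 0) (hab : 0 < la xb) (hac : 0 < la xc)
    (hbb : lb xb = 0) (hba : 0 < lb xa) (hbc : 0 < lb xc)
    (hcc : lc xc = 0) (hca : 0 < lc xa) (hcb : 0 < lc xb)
    (α β γ : ℝ) (h : α • xa + β • xb + γ • xc = 0) : α = 0 ∧ β = 0 ∧ γ = 0 := by
  have h1 := congrArg la h
  have h2 := congrArg lb h
  have h3 := congrArg lc h
  simp only [map_add, map_smul, smul_eq_mul, haa, hbb, hcc, map_zero, mul_zero, zero_add,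
    add_zero] at h1 h2 h3
  rcases lt_trichotomy α 0 with hα | hα | hα
  · exfalso
    have hb : 0 < β := by
      by_contra hc
      push Not at hc
      nlinarith
    have hc : 0 < γ := by
      by_contra hc
      push Not at hc
      nlinarith
    nlinarith [mul_pos hb hab, mul_pos hc hac]
  · subst hα
    rw [zero_mul, zero_add] at h2 h3
    exact ⟨rfl, (mul_eq_zero.1 h3).resolve_right hcb.ne', (mul_eq_zero.1 h2).resolve_right hbc.ne'⟩
  · exfalso
    have hb : β < 0 := by
      by_contra hc
      push Not at hc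
      nlinarith
    have hc : γ < 0 := by
      by_contra hc
      push Not at hc
      nlinarith
    nlinarith [mul_pos_of_neg_of_neg hb (neg_neg_of_pos hab), mul_pos_of_neg_of_neg hc (neg_neg_of_pos hac)]

theorem card_le {d : ℕ} (hd : d ≤ 2) {U : Type} [Fintype U] {H : SimpleGraph U}
    {P : Set (EuclideanSpace ℝ (Fin d))} {p : U → EuclideanSpace ℝ (Fin d)}
    (h : IsGraphOf d H P p) (w : U) (hw : ∀ u, u ≠ w → H.Adj w u) :
    Fintype.card U ≤ d + 1 := by
  classical
  by_contra hcon
  push Not at hcon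
  have hF := fun u hu => exists_fun h w hw u hu
  have hinj := h.2.2.1
  have hcard : ((Finset.univ : Finset U).erase w).card = Fintype.card U - 1 := by
    rw [Finset.card_erase_of_mem (Finset.mem_univ w), Finset.card_univ]
  have hdc : d = 0 ∨ d = 1 ∨ d = 2 := by omega
  rcases hdc with rfl | rfl | rfl
  · have h1 : 0 < ((Finset.univ : Finset U).erase w).card := by omega
    obtain ⟨a, ha⟩ := Finset.card_pos.1 h1
    have ha' := (Finset.mem_erase.1 ha).1
    exact ha' (hinj (Subsingleton.elim _ _))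
  · have h1 : 1 < ((Finset.univ : Finset U).erase w).card := by omega
    obtain ⟨a, ha, b, hb, hab⟩ := Finset.one_lt_card.1 h1
    have ha' := (Finset.mem_erase.1 ha).1
    have hb' := (Finset.mem_erase.1 hb).1
    obtain ⟨la, la0, la1⟩ := hF a ha'
    obtain ⟨lb, lb0, lb1⟩ := hF b hb'
    have hli : LinearIndependent ℝ ![p a - p w, p b - p w] := by
      rw [Fintype.linearIndependent_iff]
      intro g hg
      rw [Fin.sum_univ_two] at hg
      simp only [Matrix.cons_val_zero, Matrix.cons_val_one] at hg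
      have h2 := dep_two (la := la.toLinearMap) (lb := lb.toLinearMap) la0 (la1 b hb' hab.symm)
        lb0 (lb1 a ha' hab) _ _ hg
      intro i
      fin_cases i
      · exact h2.1
      · exact h2.2
    have h3 := hli.fintype_card_le_finrank
    rw [finrank_euclideanSpace] at h3
    simp at h3
  · have h1 : 2 < ((Finset.univ : Finset U).erase w).card := by omega
    obtain ⟨a, ha, b, hb, c, hc, hab, hac, hbc⟩ := Finset.two_lt_card.1 h1
    have ha' := (Finset.mem_erase.1 ha).1
    have hb' := (Finset.mem_erase.1 hb).1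
    have hc' := (Finset.mem_erase.1 hc).1
    obtain ⟨la, la0, la1⟩ := hF a ha'
    obtain ⟨lb, lb0, lb1⟩ := hF b hb'
    obtain ⟨lc, lc0, lc1⟩ := hF c hc'
    have hli : LinearIndependent ℝ ![p a - p w, p b - p w, p c - p w] := by
      rw [Fintype.linearIndependent_iff]
      intro g hg
      rw [Fin.sum_univ_three] at hg
      simp only [Matrix.cons_val_zero, Matrix.cons_val_one, Matrix.cons_val_two,
        Matrix.tail_cons, Matrix.head_cons] at hg
      have h2 := dep_three (la := la.toLinearMap) (lb := lb.toLinearMap) (lc := lc.toLinearMap)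
        la0 (la1 b hb' hab.symm) (la1 c hc' hac.symm)
        lb0 (lb1 a ha' hab) (lb1 c hc' hbc.symm)
        lc0 (lc1 a ha' hac) (lc1 b hb' hbc) _ _ _ hg
      intro i
      fin_cases i
      · exact h2.1
      · exact h2.2.1
      · exact h2.2.2
    have h3 := hli.fintype_card_le_finrank
    rw [finrank_euclideanSpace] at h3
    simp at h3

theorem l3c : S_L3c := by
  classical
  intro V _ G d n hd hn ⟨P, p, h⟩
  have w : Fin n := ⟨0, by omega⟩
  have : Nonempty (V ⊕ Fin n) := ⟨Sum.inr w⟩
  have h1 := card_ge h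
  have h2 := card_le hd h (Sum.inr w) fun u hu =>
    ⟨hu.symm, fun _ _ hx _ => by cases hx⟩
  rw [Fintype.card_sum, Fintype.card_fin] at h1 h2
  omega

end Pool.Agent.W2helper99.DG
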